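import Mathlib

namespace Pool.Agent.Results.MP_025584_ag.Shear

open MvPolynomial Filter Topology Set
open scoped ContDiff

abbrev P2 := Fin 2 → ℝ

/-- the Milnor set `M_a(f)`: `grad f (x)` and `x - a` are linearly dependent -/
def Milnor (f : MvPolynomial (Fin 2) ℝ) (a : P2) : Set P2 :=
  {x | ¬ LinearIndependent ℝ ![fun i => eval x (pderiv i f), x - a]}

/-- `S_a(f)` -/
def Sa (f : MvPolynomial (Fin 2) ℝ) (a : P2) : Set ℝ :=
  {t | ∃ u : ℕ → P2, (∀ j, u j ∈ Milnor f a) ∧ Tendsto (fun j => ‖u j‖) atTop atTop ∧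
    Tendsto (fun j => eval (u j) f) atTop (𝓝 t)}

/-- `f : f⁻¹(D) \ K → D` is a trivial `C^∞` fibration with fibre an open set `F ⊆ ℝ`, for a compact
`K` and an open interval `D` centred at `t`: `x ↦ (f x, ψ x)` is a diffeomorphism onto `D × F`
with inverse `θ` -/
def TrivialAt (f : MvPolynomial (Fin 2) ℝ) (t : ℝ) : Prop :=
  ∃ (δ : ℝ) (K U : Set P2) (F : Set ℝ) (ψ : P2 → ℝ) (θ : ℝ × ℝ → P2),
    0 < δ ∧ IsCompact K ∧ IsOpen F ∧ U = {x | eval x f ∈ Ioo (t - δ) (t + δ)} \ K ∧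
    ContDiffOn ℝ ∞ ψ U ∧ ContDiffOn ℝ ∞ θ (Ioo (t - δ) (t + δ) ×ˢ F) ∧
    (∀ x ∈ U, ψ x ∈ F ∧ θ (eval x f, ψ x) = x) ∧
    ∀ q ∈ Ioo (t - δ) (t + δ) ×ˢ F, θ q ∈ U ∧ eval (θ q) f = q.1 ∧ ψ (θ q) = q.2

noncomputable def f0 : MvPolynomial (Fin 2) ℝ :=
  (X 1 - X 0) * (X 0 ^ 2 * (X 1 - X 0) ^ 2 + 3 * X 0 * (X 1 - X 0) + 3)

def g (x v : ℝ) : ℝ := v * (x ^ 2 * v ^ 2 + 3 * x * v + 3)

lemma ev (x : P2) : eval x f0 = g (x 0) (x 1 - x 0) := by simp [f0, g]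

lemma d0 (x : P2) : eval x (pderiv 0 f0) = (x 1 - x 0) ^ 2 * (2 * x 0 * (x 1 - x 0) + 3)
    - 3 * (x 0 * (x 1 - x 0) + 1) ^ 2 := by
  have h3 : (3 : MvPolynomial (Fin 2) ℝ) = C 3 := rfl
  simp [f0, h3, pderiv_X, Derivation.leibniz_pow]; ring

lemma d1 (x : P2) : eval x (pderiv 1 f0) = 3 * (x 0 * (x 1 - x 0) + 1) ^ 2 := by
  have h3 : (3 : MvPolynomial (Fin 2) ℝ) = C 3 := rfl
  simp [f0, h3, pderiv_X, Derivation.leibniz_pow]; ring

lemma dep (u w : P2) (h : u 0 * w 1 - u 1 * w 0 = 0) : ¬ LinearIndependent ℝ ![u, w] := by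
  rw [LinearIndependent.pair_iff]
  intro hl
  have a := hl (w 1) (-u 1) (by ext i; fin_cases i <;> simp <;> linarith)
  have b := hl (w 0) (-u 0) (by ext i; fin_cases i <;> simp <;> linarith)
  have c := hl 1 0 (by
    ext i; fin_cases i
    · simpa using b.2
    · simpa using a.2)
  exact one_ne_zero c.1

lemma milnor_pt (a : P2) (x : ℝ) (hx : |a 0| + |a 1| + 2 ≤ x) :
    ∃ p ∈ Milnor f0 a, p 0 = x ∧ |eval p f0| ≤ 3 / x := by
  have h0 := abs_nonneg (a 0)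
  have h1 := abs_nonneg (a 1)
  have l0 := le_abs_self (a 0)
  have l1 := le_abs_self (a 1)
  have hx0 : 0 < x := by linarith
  let Φ : ℝ → ℝ := fun v => (v ^ 2 * (2 * x * v + 3) - 3 * (x * v + 1) ^ 2) * (x + v - a 1)
    - 3 * (x * v + 1) ^ 2 * (x - a 0)
  have hc : Continuous Φ := by fun_prop
  have hi : 1 / x ≤ 1 := by rw [div_le_one hx0]; linarith
  have hi0 : 0 < 1 / x := by positivity
  have e1 : 0 ≤ Φ (-(1 / x)) := by
    have : x * -(1 / x) + 1 = 0 := by field_simp; ring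
    have h2 : 2 * x * -(1 / x) + 3 = 1 := by field_simp; ring
    simp only [Φ, this, h2]
    have : 0 ≤ x + -(1 / x) - a 1 := by linarith
    nlinarith [mul_nonneg (sq_nonneg (-(1 / x))) this]
  have e2 : Φ 0 ≤ 0 := by simp only [Φ]; nlinarith
  obtain ⟨v, hv, hΦ⟩ := intermediate_value_Icc' (show -(1 / x) ≤ 0 by linarith) hc.continuousOn
    (show (0 : ℝ) ∈ Icc (Φ 0) (Φ (-(1 / x))) from ⟨e2, e1⟩)
  refine ⟨![x, x + v], dep _ _ ?_, rfl, ?_⟩
  · simp only [d0, d1, Pi.sub_apply, Matrix.cons_val_zero, Matrix.cons_val_one,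
      add_sub_cancel_left]
    exact hΦ
  · rw [ev]
    simp only [Matrix.cons_val_zero, Matrix.cons_val_one, add_sub_cancel_left, g]
    have w0 : -1 ≤ x * v := by
      have := mul_le_mul_of_nonneg_left hv.1 hx0.le
      have e : x * -(1 / x) = -1 := by field_simp
      linarith
    have w1 : x * v ≤ 0 := mul_nonpos_of_nonneg_of_nonpos hx0.le hv.2
    have w2 : 0 ≤ x ^ 2 * v ^ 2 + 3 * x * v + 3 := by nlinarith [sq_nonneg (x * v)]
    have w3 : x ^ 2 * v ^ 2 + 3 * x * v + 3 ≤ 3 := by nlinarith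
    rw [abs_mul, abs_of_nonneg w2, abs_of_nonpos hv.2]
    calc -v * (x ^ 2 * v ^ 2 + 3 * x * v + 3) ≤ 1 / x * 3 :=
          mul_le_mul (by linarith [hv.1]) w3 w2 hi0.le
      _ = 3 / x := by ring

lemma mem_Sa (a : P2) : 0 ∈ Sa f0 a := by
  choose u hu h0 hb using fun j : ℕ => milnor_pt a (j + (|a 0| + |a 1| + 2)) (by
    have : (0 : ℝ) ≤ j := Nat.cast_nonneg j
    linarith)
  have ht : Tendsto (fun j : ℕ => (j : ℝ) + (|a 0| + |a 1| + 2)) atTop atTop :=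
    tendsto_atTop_add_const_right _ _ tendsto_natCast_atTop_atTop
  refine ⟨u, hu, tendsto_atTop_mono (fun j => ?_) ht, ?_⟩
  · rw [← h0 j]
    exact (le_abs_self _).trans (norm_le_pi_norm (u j) 0)
  · exact squeeze_zero_norm hb (tendsto_const_nhds.div_atTop ht)

lemma q_pos (x v : ℝ) : 3 / 4 ≤ x ^ 2 * v ^ 2 + 3 * x * v + 3 := by
  nlinarith [sq_nonneg (x * v + 3 / 2)]

lemma small {x v : ℝ} (h : g x v ∈ Ioo (0 - 3 / 4 : ℝ) (0 + 3 / 4)) : v ∈ Icc (-1 : ℝ) 1 := by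
  have := q_pos x v
  obtain ⟨h1, h2⟩ := h
  unfold g at h1 h2
  constructor <;> nlinarith

lemma J_pos {x v : ℝ} (h : v ∈ Icc (-1 : ℝ) 1) :
    0 < v ^ 2 * (2 * x * v + 3) + 3 * (x * v + 1) ^ 2 := by
  have hv : v ^ 2 ≤ 1 := by nlinarith [h.1, h.2]
  have e : 2 * x * v + 3 = 2 * (x * v + 1) + 1 := by ring
  rw [e]
  by_cases h0 : v = 0
  · subst h0; norm_num
  have hv0 : 0 < v ^ 2 := by positivity
  generalize x * v + 1 = w
  generalize v ^ 2 = s at *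
  by_cases hw : 0 < 2 * w + 1
  · nlinarith [mul_pos hv0 hw, sq_nonneg w]
  · nlinarith [sq_nonneg (w + 1), sq_nonneg w]

lemma mono (s : ℝ) : StrictMonoOn (fun v => g (s + v) v) (Icc (-1 : ℝ) 1) := by
  have hd : ∀ v, HasDerivAt (fun v => g (s + v) v)
      (v ^ 2 * (2 * (s + v) * v + 3) + 3 * ((s + v) * v + 1) ^ 2) v := by
    intro v
    have h1 : HasDerivAt (fun v : ℝ => v) 1 v := hasDerivAt_id v
    have h2 : HasDerivAt (fun v : ℝ => s + v) 1 v := h1.const_add s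
    have := h1.mul ((((h2.pow 2).mul (h1.pow 2)).add ((h2.const_mul 3).mul h1)).add_const 3)
    refine HasDerivAt.congr_deriv this ?_
    simp; ring
  apply strictMonoOn_of_deriv_pos (convex_Icc _ _)
    (fun v _ => (hd v).continuousAt.continuousWithinAt)
  intro v hv
  rw [(hd v).deriv]
  exact J_pos (interior_subset hv)

noncomputable def Psi (x : P2) : ℝ × ℝ := (g (x 0) (x 1 - x 0), 2 * x 0 - x 1)

lemma surj (q : ℝ × ℝ) (hq : q.1 ∈ Ioo (0 - 3 / 4 : ℝ) (0 + 3 / 4)) : ∃ x, Psi x = q := by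
  have hc : Continuous fun v => g (q.2 + v) v := by unfold g; fun_prop
  have a := q_pos (q.2 + -1) (-1)
  have b := q_pos (q.2 + 1) 1
  obtain ⟨v, -, hv⟩ := intermediate_value_Icc (show (-1 : ℝ) ≤ 1 by norm_num) hc.continuousOn
    (show q.1 ∈ Icc (g (q.2 + -1) (-1)) (g (q.2 + 1) 1) by
      unfold g; constructor <;> linarith [hq.1, hq.2])
  refine ⟨![q.2 + v, q.2 + 2 * v], Prod.ext ?_ ?_⟩
  · simp only [Psi, Matrix.cons_val_zero, Matrix.cons_val_one]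
    rw [show q.2 + 2 * v - (q.2 + v) = v by ring]; exact hv
  · simp [Psi]; ring

lemma inj {x y : P2} (hx : (Psi x).1 ∈ Ioo (0 - 3 / 4 : ℝ) (0 + 3 / 4)) (h : Psi x = Psi y) :
    x = y := by
  have hy := h ▸ hx
  have h1 := congrArg Prod.fst h
  have h2 := congrArg Prod.snd h
  simp only [Psi] at hx hy h1 h2
  have h3 : x 1 - x 0 = y 1 - y 0 := by
    apply (mono (2 * x 0 - x 1)).injOn (small hx) (small hy)
    simp only
    rw [show 2 * x 0 - x 1 + (x 1 - x 0) = x 0 by ring,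
      show 2 * x 0 - x 1 + (y 1 - y 0) = y 0 by linarith]
    exact h1
  ext i; fin_cases i <;> simp <;> linarith

noncomputable def theta (q : ℝ × ℝ) : P2 := Function.invFun Psi q

lemma Psi_theta (q : ℝ × ℝ) (hq : q.1 ∈ Ioo (0 - 3 / 4 : ℝ) (0 + 3 / 4)) : Psi (theta q) = q :=
  Function.invFun_eq (surj q hq)

lemma Psi_smooth : ContDiff ℝ ∞ Psi := by unfold Psi g; fun_prop

noncomputable def Lin (A B : ℝ) (h : A + 2 * B ≠ 0) : P2 ≃L[ℝ] ℝ × ℝ :=
  LinearEquiv.toContinuousLinearEquiv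
  { toFun := fun x => (A * x 0 + B * x 1, 2 * x 0 - x 1)
    invFun := fun q => ![(q.1 + B * q.2) / (A + 2 * B), (2 * q.1 - A * q.2) / (A + 2 * B)]
    map_add' := fun x y => by ext <;> simp <;> ring
    map_smul' := fun c x => by ext <;> simp <;> ring
    left_inv := fun x => by
      ext i; fin_cases i <;> simp <;> rw [div_eq_iff h] <;> ring
    right_inv := fun q => by
      have h' : A + B * 2 ≠ 0 := by rwa [mul_comm]
      ext <;> simp <;> field_simp <;> ring }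

lemma theta_smooth (q : ℝ × ℝ) (hq : q.1 ∈ Ioo (0 - 3 / 4 : ℝ) (0 + 3 / 4)) :
    ContDiffAt ℝ ∞ theta q := by
  obtain ⟨x, rfl⟩ := surj q hq
  have hJ := J_pos (x := x 0) (small hq)
  have hne : ((x 1 - x 0) ^ 2 * (2 * x 0 * (x 1 - x 0) + 3) - 3 * (x 0 * (x 1 - x 0) + 1) ^ 2)
      + 2 * (3 * (x 0 * (x 1 - x 0) + 1) ^ 2) ≠ 0 := by linarith
  have hd : HasFDerivAt Psi ((Lin _ _ hne : P2 ≃L[ℝ] ℝ × ℝ) : P2 →L[ℝ] ℝ × ℝ) x := by
    have h0 := hasFDerivAt_apply (𝕜 := ℝ) (F' := fun _ : Fin 2 => ℝ) 0 x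
    have h1 := hasFDerivAt_apply (𝕜 := ℝ) (F' := fun _ : Fin 2 => ℝ) 1 x
    have hv := h1.sub h0
    have := (hv.mul ((((h0.pow 2).mul (hv.pow 2)).add ((h0.const_mul 3).mul hv)).add_const 3)).prodMk
      ((h0.const_mul 2).sub h1)
    refine HasFDerivAt.congr_fderiv this ?_
    apply ContinuousLinearMap.ext
    intro y
    apply Prod.ext <;> simp [Lin] <;> ring
  have hs := Psi_smooth.contDiffAt (x := x)
  have hl := hs.to_localInverse hd (by simp)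
  refine hl.congr_of_eventuallyEq ?_
  have e1 := (hs.hasStrictFDerivAt' hd (by simp)).eventually_right_inverse
  have e2 : ∀ᶠ y in 𝓝 (Psi x), y.1 ∈ Ioo (0 - 3 / 4 : ℝ) (0 + 3 / 4) :=
    (isOpen_Ioo.preimage continuous_fst).mem_nhds hq
  filter_upwards [e1, e2] with y h1 h2
  apply inj (by rw [Psi_theta y h2]; exact h2)
  rw [Psi_theta y h2]
  exact h1.symm

theorem result : ∃ (f : MvPolynomial (Fin 2) ℝ) (t : ℝ), (∀ a, t ∈ Sa f a) ∧ TrivialAt f t := by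
  refine ⟨f0, 0, mem_Sa, 3 / 4, ∅, _, univ, fun x => 2 * x 0 - x 1, theta, by norm_num,
    isCompact_empty, isOpen_univ, rfl, by fun_prop,
    fun q hq => (theta_smooth q hq.1).contDiffWithinAt, fun x hx => ⟨trivial, ?_⟩, fun q hq => ?_⟩
  · have h1 := hx.1
    simp only [mem_ofPred_eq, ev] at h1
    rw [ev]
    exact inj (by rw [Psi_theta _ h1]; exact h1) (Psi_theta (Psi x) h1)
  · have h := Psi_theta q hq.1
    have h1 : eval (theta q) f0 = q.1 := by rw [ev]; exact congrArg Prod.fst h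
    exact ⟨⟨by simp only [mem_ofPred_eq, h1]; exact hq.1, fun h => h⟩, h1, congrArg Prod.snd h⟩

end Pool.Agent.Results.MP_025584_ag.Shear
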